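import Pool.Agent.P.MP_fea266_nt.Up

/-! Both sides of Schmidt's question for `n = 8`, `{d, e} = {2, 6}`, `j = 1` are equal to seven. -/

set_option autoImplicit false

namespace Pool.Agent.Results.MP_fea266_nt.EightSixTwo

open Pool.Agent.P.MP_fea266_nt

theorem result : mu 8 6 2 = 7 ∧ mu 8 2 6 = 7 :=
  ⟨le_antisymm up low, le_antisymm ((mu_dual (d := 2) (e := 6) rfl two_pos (by norm_num)).trans up)
    (low.trans (mu_dual (d := 6) (e := 2) rfl (by norm_num) two_pos))⟩

end Pool.Agent.Results.MP_fea266_nt.EightSixTwo
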